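import Pool.Agent.G02.Stmts

/-!
# Squad G02 (MP_ba5221_nt), row HLV: halving a point whose first coordinate is a square
-/

set_option autoImplicit false

namespace Pool.Agent.G02.H29

open Pool.Agent.G02

/-- the halving once a square `r²` is found -/
theorem halve {a b s r : ℚ} (hb : b ≠ 0) (hr : r ≠ 0)
    (h : r ^ 4 - 2 * a * r ^ 2 + (a ^ 2 - 4 * b) = 4 * s ^ 2 * r ^ 2) :
    ∃ x y : ℚ, y ≠ 0 ∧ y ^ 2 = x * (x ^ 2 + a * x + b) ∧ (x ^ 2 - b) ^ 2 = s ^ 2 * (4 * y ^ 2) := by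
  set x : ℚ := (r ^ 2 - a + 2 * s * r) / 2 with hx
  have h1 : x ^ 2 - (r ^ 2 - a) * x + b = 0 := by
    rw [hx]
    linear_combination (-(1 : ℚ) / 4) * h
  have hx0 : x ≠ 0 := by
    intro h0
    rw [h0] at h1
    apply hb
    linear_combination h1
  have h2 : 2 * x = r ^ 2 - a + 2 * s * r := by
    rw [hx]
    ring
  refine ⟨x, r * x, mul_ne_zero hr hx0, ?_, ?_⟩
  · linear_combination (-x) * h1
  · have h3 : x ^ 2 - b = 2 * s * r * x := by
      linear_combination (-1 : ℚ) * h1 + x * h2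
    rw [h3]
    ring

/-- row HLV -/
theorem hlv : HlvStmt := by
  intro a b s Y hb hab hs hY hCl
  -- both candidates
  have key : ∀ Y' : ℚ, Y' ^ 2 = s ^ 2 * (s ^ 4 + a * s ^ 2 + b) →
      ∀ z z' : ℚ, z = a + 2 * s ^ 2 + 2 * Y' / s → z' = a + 2 * s ^ 2 - 2 * Y' / s →
      z * z' = a ^ 2 - 4 * b ∧ z ^ 2 - 2 * a * z + (a ^ 2 - 4 * b) = 4 * s ^ 2 * z := by
    intro Y' hY' z z' hz hz'
    have e1 : (2 * Y' / s) ^ 2 = 4 * (s ^ 4 + a * s ^ 2 + b) := by
      rw [div_pow, mul_pow, hY']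
      field_simp
      ring
    have e2 : z * z' = a ^ 2 - 4 * b := by
      rw [hz, hz']
      linear_combination (-1 : ℚ) * e1
    refine ⟨e2, ?_⟩
    have e3 : z + z' = 2 * a + 4 * s ^ 2 := by
      rw [hz, hz']
      ring
    rw [← e2]
    linear_combination z * e3
  set z : ℚ := a + 2 * s ^ 2 + 2 * Y / s with hz
  set z' : ℚ := a + 2 * s ^ 2 - 2 * Y / s with hz'
  obtain ⟨p1, p2⟩ := key Y hY z z' hz hz'
  have hz0 : z ≠ 0 := by
    intro h0
    rw [h0, zero_mul] at p1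
    exact hab p1.symm
  have hz0' : z' ≠ 0 := by
    intro h0
    rw [h0, mul_zero] at p1
    exact hab p1.symm
  have p3 : z' ^ 2 - 2 * a * z' + (a ^ 2 - 4 * b) = 4 * s ^ 2 * z' := by
    have e3 : z + z' = 2 * a + 4 * s ^ 2 := by
      rw [hz, hz']
      ring
    rw [← p1]
    linear_combination z' * e3
  have fin : ∀ w : ℚ, w ≠ 0 → w ^ 2 - 2 * a * w + (a ^ 2 - 4 * b) = 4 * s ^ 2 * w → IsSquare w →
      ∃ x y : ℚ, y ≠ 0 ∧ y ^ 2 = x * (x ^ 2 + a * x + b) ∧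
        (x ^ 2 - b) ^ 2 = s ^ 2 * (4 * y ^ 2) := by
    rintro w hw0 hw ⟨r, hr⟩
    have hr0 : r ≠ 0 := by
      rintro rfl
      apply hw0
      rw [hr, mul_zero]
    refine halve hb hr0 ?_
    rw [hr] at hw
    linear_combination hw
  obtain ⟨s', hs', h⟩ := hCl z (2 * s * z) hz0 (by
    have e : z * (z ^ 2 + -2 * a * z + (a ^ 2 - 4 * b)) = z * (4 * s ^ 2 * z) := by
      rw [← p2]
      ring
    rw [e]
    ring)
  rw [Set.mem_singleton_iff] at hs'
  subst hs'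
  rcases h with h | h
  · rw [one_mul] at h
    exact fin z hz0 p2 h
  · rw [one_mul] at h
    refine fin z' hz0' p3 ?_
    obtain ⟨r, hr⟩ := h
    refine ⟨r / z, ?_⟩
    rw [← p1] at hr
    field_simp
    linear_combination hr

end Pool.Agent.G02.H29
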