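import Pool.Agent.G02.StmtsR

/-!
# Squad G02 (MP_ba5221_nt), row R1F: the classes of the fibres of rank one
-/

set_option autoImplicit false

namespace Pool.Agent.G02.H29R

open Pool.Agent.G02

/-- valuation one -/
theorem val_one {p : ℕ} [Fact p.Prime] {b c : ℤ} (h : b = p * c) (hc : ¬ (p : ℤ) ∣ c) :
    padicValInt p b = 1 := by
  have hc0 : c ≠ 0 := by
    rintro rfl
    exact hc (dvd_zero _)
  have hp0 : (p : ℤ) ≠ 0 := by exact_mod_cast (Fact.out : p.Prime).ne_zero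
  rw [h, padicValInt.mul hp0 hc0, padicValInt_self]
  rw [padicValInt.eq_zero_of_not_dvd hc]

theorem not_dvd_nat {p q : ℕ} (hp : p.Prime) (hq : q.Prime) (h : p ≠ q) : ¬ (p : ℤ) ∣ (q : ℤ) := by
  intro hd
  exact h ((Nat.prime_dvd_prime_iff_eq hp hq).mp (Int.natCast_dvd_natCast.mp hd))

theorem not_dvd_two {p : ℕ} (hp : p.Prime) (h : p ≠ 2) : ¬ (p : ℤ) ∣ 2 := by
  have := not_dvd_nat hp Nat.prime_two h
  exact_mod_cast this

/-- row R1F -/
theorem r1f (hNRM : NrmStmt) (hVB1 : Vb1Stmt) (hVR2 : Vr2Stmt) (hSCC : SccStmt) : R1fStmt := by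
  intro p q r hR
  have : Fact p.Prime := ⟨hR.pp⟩
  have hmp := hR.mp
  have hmq := hR.mq
  have hr := hR.hr
  have p2 : p ≠ 2 := by
    rintro rfl
    omega
  have npq : p ≠ q := by
    rintro rfl
    omega
  have npr : p ≠ r := by
    rintro rfl
    omega
  have hq0 : (q : ℚ) ≠ 0 := by exact_mod_cast hR.pq.ne_zero
  have hP : Prime (p : ℤ) := Nat.prime_iff_prime_int.mp hR.pp
  have n2 := not_dvd_two hR.pp p2
  have nq := not_dvd_nat hR.pp hR.pq npq
  have nr := not_dvd_nat hR.pp hR.pr npr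
  have nq2 : ¬ (p : ℤ) ∣ (q : ℤ) ^ 2 := fun h => nq (hP.dvd_of_dvd_pow h)
  have nq3 : ¬ (p : ℤ) ∣ (q : ℤ) ^ 3 := fun h => nq (hP.dvd_of_dvd_pow h)
  have e1 : padicValInt p (-(2 * (-1) ^ 2 * p * q ^ 3)) = 1 := by
    refine val_one (c := -(2 * q ^ 3)) (by ring) ?_
    rw [dvd_neg]
    intro h
    rcases hP.dvd_or_dvd h with h | h
    · exact n2 h
    · exact nq3 h
  have e2 : padicValInt p (4 * p * q ^ 2 * r) = 1 := by
    refine val_one (c := 2 * 2 * q ^ 2 * r) (by ring) ?_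
    intro h
    rcases hP.dvd_or_dvd h with h | h
    · rcases hP.dvd_or_dvd h with h | h
      · rcases hP.dvd_or_dvd h with h | h
        · exact n2 h
        · exact n2 h
      · exact nq2 h
    · exact nr h
  refine ⟨?_, ?_⟩
  · have c1 := hNRM (-(2 * (-1) * p * q)) (-(2 * (-1) ^ 2 * p * q ^ 3)) p {1} hR.pp
      (by rw [e1]; decide) fun d M e N B h3 h4 => by
        rw [hVB1 (-1) p q r hR (by decide) d M e N B h3 h4]
        simp
    rw [← hSCC.1 _ _ (q : ℚ) _ hq0]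
    have a1 : (-(-(2 * (p : ℚ) / q)) * (q : ℚ) ^ 2 : ℚ) = ((-(2 * (-1) * p * q) : ℤ) : ℚ) := by
      push_cast
      field_simp
    have a2 : (-(2 * (p : ℚ) / q) * (q : ℚ) ^ 4 : ℚ) = ((-(2 * (-1) ^ 2 * p * q ^ 3) : ℤ) : ℚ) := by
      push_cast
      field_simp
    rw [a1, a2]
    exact c1
  · have c1 := hNRM (-(4 * p * q)) (4 * p * q ^ 2 * r) p {1, 2 * (q : ℚ) * r} hR.pp
      (by rw [e2]; decide) fun d M e N B h3 h4 => by
        rcases hVR2 p q r hR d M e N B h3 h4 with h | h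
        · rw [h]
          simp
        · rw [h]
          push_cast
          exact Set.mem_insert_of_mem _ (Set.mem_singleton _)
    rw [← hSCC.1 _ _ (q : ℚ) _ hq0]
    have a1 : (2 * (-(2 * (p : ℚ) / q)) * (q : ℚ) ^ 2 : ℚ) = ((-(4 * p * q) : ℤ) : ℚ) := by
      push_cast
      field_simp
      ring
    have a2 : (((-(2 * (p : ℚ) / q)) ^ 2 - 4 * (-(2 * (p : ℚ) / q))) * (q : ℚ) ^ 4 : ℚ) =
        ((4 * p * q ^ 2 * r : ℤ) : ℚ) := by
      have hr' : (r : ℤ) = p + 2 * q := hr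
      have hr2 : (r : ℚ) = p + 2 * q := by exact_mod_cast hr'
      push_cast
      rw [hr2]
      field_simp
      ring
    rw [a1, a2]
    exact c1

end Pool.Agent.G02.H29R
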