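import Pool.Agent.G02.Stmts

/-!
# Squad G02 (MP_ba5221_nt), row TRB: recipes B and C, conclusions
-/

set_option autoImplicit false

namespace Pool.Agent.G02.H29

open Pool.Agent.G02

/-- valuation one -/
theorem val_one {p : ℕ} [Fact p.Prime] {b c : ℤ} (h : b = p * c) (hc : ¬ (p : ℤ) ∣ c) :
    padicValInt p b = 1 := by
  have hc0 : c ≠ 0 := by
    rintro rfl
    exact hc (dvd_zero _)
  have hp0 : (p : ℤ) ≠ 0 := by exact_mod_cast (Fact.out : p.Prime).ne_zero
  rw [h, padicValInt.mul hp0 hc0, padicValInt_self]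
  rw [padicValInt.eq_zero_of_not_dvd hc]

/-- the general assembly -/
theorem assemble (hNRM : NrmStmt) (hCRI : CriStmt) (hTWV : TwvStmt) (a b a' b' : ℤ) (p : ℕ)
    (hp : p.Prime) (hb4 : b % 4 = 2) (h1 : Odd (padicValInt p b)) (h2 : Odd (padicValInt p b'))
    (ha' : a' = -2 * a) (hb' : b' = a ^ 2 - 4 * b)
    (hV : ∀ d M e N B : ℤ, Qt a b d M e N B → ¬ (p : ℤ) ∣ d → d = 1)
    (hV' : ∀ d M e N B : ℤ, Qt a' b' d M e N B → ¬ (p : ℤ) ∣ d → d = 1) : Tr a b := by
  have hb0 : b ≠ 0 := by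
    rintro rfl
    simp at hb4
  have hb0' : a ^ 2 - 4 * b ≠ 0 := by
    rw [← hb']
    rintro h
    rw [h, padicValInt.zero] at h2
    exact absurd h2 (by decide)
  have c1 : Cl a b {1} := hNRM a b p {1} hp h1 fun d M e N B h3 h4 => by
    rw [hV d M e N B h3 h4]
    simp
  have c2 : Cl a' b' {1} := hNRM a' b' p {1} hp h2 fun d M e N B h3 h4 => by
    rw [hV' d M e N B h3 h4]
    simp
  refine hCRI a b hb0 hb0' (hTWV a b (Or.inl hb4)) c1 ?_
  rw [ha', hb'] at c2
  push_cast at c2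
  exact c2

theorem not_dvd_nat {p q : ℕ} (hp : p.Prime) (hq : q.Prime) (h : p ≠ q) : ¬ (p : ℤ) ∣ (q : ℤ) := by
  intro hd
  exact h ((Nat.prime_dvd_prime_iff_eq hp hq).mp (Int.natCast_dvd_natCast.mp hd))

theorem not_dvd_two {p : ℕ} (hp : p.Prime) (h : p ≠ 2) : ¬ (p : ℤ) ∣ 2 := by
  have := not_dvd_nat hp Nat.prime_two h
  exact_mod_cast this

/-- row TRB -/
theorem trb (hNRM : NrmStmt) (hCRI : CriStmt) (hTWV : TwvStmt) (hVB1 : Vb1Stmt) (hVB2 : Vb2Stmt)
    (hVC1 : Vc1Stmt) (hVC2 : Vc2Stmt) (hRLB : RlbStmt) (hRLC : RlcStmt) : TrbStmt := by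
  refine ⟨?_, ?_⟩
  · intro k p q r _ hR hk hleg
    have : Fact p.Prime := ⟨hR.pp⟩
    have : Fact r.Prime := ⟨hR.pr⟩
    obtain ⟨-, s, hs⟩ := hRLB k p q r hR
    have hP : Prime (p : ℤ) := Nat.prime_iff_prime_int.mp hR.pp
    have n2 := not_dvd_two hR.pp hs.p2
    have nq := not_dvd_nat hR.pp hR.pq hs.npq
    have nr := not_dvd_nat hR.pp hR.pr hs.npr
    have nk := hs.kp
    have nk2 : ¬ (p : ℤ) ∣ k ^ 2 := fun h => nk (hP.dvd_of_dvd_pow h)
    have nq2 : ¬ (p : ℤ) ∣ (q : ℤ) ^ 2 := fun h => nq (hP.dvd_of_dvd_pow h)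
    have nq3 : ¬ (p : ℤ) ∣ (q : ℤ) ^ 3 := fun h => nq (hP.dvd_of_dvd_pow h)
    have e1 : padicValInt p (-(2 * k ^ 2 * p * q ^ 3)) = 1 := by
      refine val_one (c := -(2 * k ^ 2 * q ^ 3)) (by ring) ?_
      rw [dvd_neg]
      intro h
      rcases hP.dvd_or_dvd h with h | h
      · rcases hP.dvd_or_dvd h with h | h
        · exact n2 h
        · exact nk2 h
      · exact nq3 h
    have e2 : padicValInt p (4 * k ^ 2 * p * q ^ 2 * r) = 1 := by
      refine val_one (c := 2 * 2 * k ^ 2 * q ^ 2 * r) (by ring) ?_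
      intro h
      rcases hP.dvd_or_dvd h with h | h
      · rcases hP.dvd_or_dvd h with h | h
        · rcases hP.dvd_or_dvd h with h | h
          · rcases hP.dvd_or_dvd h with h | h
            · exact n2 h
            · exact n2 h
          · exact nk2 h
        · exact nq2 h
      · exact nr h
    have b4 : (-(2 * k ^ 2 * p * q ^ 3) : ℤ) % 4 = 2 := by
      have o1 : Odd (k ^ 2 * p * q ^ 3 : ℤ) := by
        have a1 : Odd k := by
          rw [Int.odd_iff]
          omega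
        have a2 : Odd (p : ℤ) := by
          rw [Int.odd_iff]
          have := hR.mp
          omega
        have a3 : Odd (q : ℤ) := by
          rw [Int.odd_iff]
          have := hR.mq
          omega
        exact (a1.pow.mul a2).mul a3.pow
      obtain ⟨n, hn⟩ := o1
      have : (-(2 * k ^ 2 * p * q ^ 3) : ℤ) = -(2 * (2 * n + 1)) := by
        rw [← hn]
        ring
      rw [this]
      omega
    refine assemble hNRM hCRI hTWV (-(2 * k * p * q)) (-(2 * k ^ 2 * p * q ^ 3))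
      (4 * k * p * q) (4 * k ^ 2 * p * q ^ 2 * r) p hR.pp b4 (by rw [e1]; decide)
      (by rw [e2]; decide) (by ring) ?_ (hVB1 k p q r hR hk) (hVB2 k p q r hR hleg)
    rw [hR.hr]
    ring
  · intro p q r hR
    have : Fact p.Prime := ⟨hR.pp⟩
    have : Fact q.Prime := ⟨hR.pq⟩
    have : Fact r.Prime := ⟨hR.pr⟩
    obtain ⟨-, s, hs⟩ := hRLC p q r hR
    have hP : Prime (p : ℤ) := Nat.prime_iff_prime_int.mp hR.pp
    have n2 := not_dvd_two hR.pp hs.p2
    have nq := not_dvd_nat hR.pp hR.pq hs.npq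
    have nr := not_dvd_nat hR.pp hR.pr hs.npr
    have nq2 : ¬ (p : ℤ) ∣ (q : ℤ) ^ 2 := fun h => nq (hP.dvd_of_dvd_pow h)
    have nq3 : ¬ (p : ℤ) ∣ (q : ℤ) ^ 3 := fun h => nq (hP.dvd_of_dvd_pow h)
    have e1 : padicValInt p (2 * p * q ^ 3) = 1 := by
      refine val_one (c := 2 * q ^ 3) (by ring) ?_
      intro h
      rcases hP.dvd_or_dvd h with h | h
      · exact n2 h
      · exact nq3 h
    have e2 : padicValInt p (-(p * q ^ 2 * r)) = 1 := by
      refine val_one (c := -(q ^ 2 * r)) (by ring) ?_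
      rw [dvd_neg]
      intro h
      rcases hP.dvd_or_dvd h with h | h
      · exact nq2 h
      · exact nr h
    have b4 : (2 * p * q ^ 3 : ℤ) % 4 = 2 := by
      have o1 : Odd (p * q ^ 3 : ℤ) := by
        have a2 : Odd (p : ℤ) := by
          rw [Int.odd_iff]
          have := hR.mp
          omega
        have a3 : Odd (q : ℤ) := by
          rw [Int.odd_iff]
          have := hR.mq
          omega
        exact a2.mul a3.pow
      obtain ⟨n, hn⟩ := o1
      have : (2 * p * q ^ 3 : ℤ) = 2 * (2 * n + 1) := by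
        rw [← hn]
        ring
      rw [this]
      omega
    refine assemble hNRM hCRI hTWV (p * q) (2 * p * q ^ 3)
      (-(2 * p * q)) (-(p * q ^ 2 * r)) p hR.pp b4 (by rw [e1]; decide)
      (by rw [e2]; decide) (by ring) ?_ (hVC1 p q r hR) (hVC2 p q r hR)
    rw [hR.hr]
    ring

end Pool.Agent.G02.H29
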