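import Pool.Agent.G02.StmtsS

/-!
# Squad G02 (MP_ba5221_nt), row FT2: full 2-torsion
-/

set_option autoImplicit false

namespace Pool.Agent.G02.H29R

open Pool.Agent.G02 Pool.Agent.NJ Pool.Agent.GT.F

open Classical in
/-- row FT2 -/
theorem ft2 (hDLT : DltStmt) (hTOR : Pool.Agent.GT.F.TorStmt) : Ft2Stmt := by
  intro K _ _ W e a b hΔ hR hs
  obtain ⟨s, hs⟩ := hs
  have hD := hDLT K W e a b hR
  have h2 : (2 : K) ≠ 0 := two_ne_zero
  have hb : b ≠ 0 := by
    rintro rfl
    exact hΔ (by rw [hD]; ring)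
  have hc : a ^ 2 - 4 * b ≠ 0 := by
    intro h
    exact hΔ (by rw [hD, h]; ring)
  have hs0 : s ≠ 0 := by
    rintro rfl
    exact hc (by rw [hs]; ring)
  have hb4 : b = (a ^ 2 - s * s) / 4 := by
    rw [← hs]
    ring
  set e1 : K := e + (-a + s) / 2 with he1
  set e2 : K := e + (-a - s) / 2 with he2
  have p1 : (e1 - e) * (e2 - e) = b := by
    rw [he1, he2, hb4]
    ring
  have n1 : e ≠ e1 := by
    intro h
    exact hb (by rw [← p1, ← h]; ring)
  have n2 : e ≠ e2 := by
    intro h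
    exact hb (by rw [← p1, ← h]; ring)
  have n3 : e1 ≠ e2 := by
    intro h
    apply hs0
    have : e1 - e2 = s := by
      rw [he1, he2]
      ring
    rw [← this, h, sub_self]
  obtain ⟨r1, r2, r3⟩ := hR
  have hRoots : Roots W e e1 e2 := by
    refine ⟨?_, ?_, ?_⟩
    · rw [r1, he1, he2]
      ring
    · rw [r2, he1, he2, hb4]
      ring
    · rw [r3, he1, he2, hb4]
      ring
  have hinj : Function.Injective ![e, e1, e2] := by
    intro i j hij
    fin_cases i <;> fin_cases j <;> simp_all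
  have h3 := (hTOR K W ![e, e1, e2] hRoots hinj).2.2
  have h4 : ∀ P : W.toAffine.Point, 2 • P = 0 ↔ P + P = 0 := fun P => by rw [two_nsmul]
  have h5 : Nat.card {P : W.toAffine.Point // 2 • P = 0} =
      Nat.card {P : W.toAffine.Point // P + P = 0} :=
    Nat.card_congr (Equiv.subtypeEquivRight h4)
  show Nat.card {P : W.toAffine.Point // 2 • P = 0} = 4
  rw [h5]
  exact h3

end Pool.Agent.G02.H29R
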